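import Pool.Agent.Lib_helper10.T2.DefsB

/-!
# Thin families of quadratic polynomials `n² + b²`, `b ≤ x^β`: definitions (MP_892e4c_nt)
-/

namespace Pool.Agent.TF

open Pool.Agent.T2

/-- cutoff functions: values in `[0, 1]`, support in `[δ, 1]`, Lipschitz constant `Λ` -/
structure Cut (δ Λ : ℝ) (f : ℝ → ℝ) : Prop where
  nonneg : ∀ t, 0 ≤ f t
  le_one : ∀ t, f t ≤ 1
  supp : ∀ t, f t ≠ 0 → δ ≤ t ∧ t ≤ 1
  lip : ∀ s t, |f s - f t| ≤ Λ * |s - t|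

/-- the bilinear sum; `σ = 1` or `σ = -1` (the latter corresponds to the conjugate primes) -/
noncomputable def SS (f : ℝ → ℝ) (om : ℕ → ℝ) (σ : ℤ) (x Y : ℝ) (c : ℤ → ℝ) : ℝ :=
  ∑ p ∈ pr1 Y (2 * Y), om p * ∑ z ∈ Bl (2 * x ^ 2 / Y),
    gl z * c (σ * (pel p * z).im) * f (((pel p * z).re : ℝ) / x)

/-- the cells: an interval of length `B / L` intersected with a class modulo `M` -/
noncomputable def Cell (L M : ℕ) (B : ℝ) (i : ℕ) (r : ℤ) : Finset ℤ :=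
  (Finset.Icc 1 ⌊B⌋).filter (fun b =>
    ((i : ℝ) * B / L < (b : ℝ) ∧ (b : ℝ) ≤ ((i : ℝ) + 1) * B / L) ∧ (M : ℤ) ∣ b - r)

/-- the intervals of length `B / L` -/
noncomputable def Ivl (L : ℕ) (B : ℝ) (i : ℕ) : Finset ℤ :=
  (Finset.Icc 1 ⌊B⌋).filter (fun b =>
    (i : ℝ) * B / L < (b : ℝ) ∧ (b : ℝ) ≤ ((i : ℝ) + 1) * B / L)

/-- `∏_{p ∣ n} (1 + 1/p)` -/
noncomputable def hh (n : ℕ) : ℝ := ∏ p ∈ n.primeFactors, (1 + 1 / (p : ℝ))

/-- the vector `(k, h)` -/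
def vec (k h : ℕ) : G := ⟨(k : ℤ), (h : ℤ)⟩

open Classical in
/-- the number of pairs of prime elements with norms in `(Y, 2Y]` and a nonzero determinant,
divisible by `q`, of absolute value at most `D` -/
noncomputable def Np (Y D : ℝ) (q : ℕ) : ℝ :=
  (((pr1 Y (2 * Y) ×ˢ pr1 Y (2 * Y)).filter (fun t =>
    det (pel t.1) (pel t.2) ≠ 0 ∧ |(det (pel t.1) (pel t.2) : ℝ)| ≤ D ∧
      (q : ℤ) ∣ det (pel t.1) (pel t.2))).card : ℝ)

/-- `e^{2πit}` -/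
noncomputable def ex (t : ℝ) : ℂ := Complex.exp (2 * Real.pi * Complex.I * t)

/-- the reduced residues modulo `q` -/
def Rd (q : ℕ) : Finset ℕ := (Finset.range q).filter (fun a => Nat.Coprime a q)

/-- the mean square of the Fourier transform at the fractions with denominator `q` -/
noncomputable def AA (c : ℤ → ℝ) (I : Finset ℤ) (q : ℕ) : ℝ :=
  ∑ a ∈ Rd q, ‖∑ b ∈ I, (c b : ℂ) * ex ((a : ℝ) * b / q)‖ ^ 2

open Classical in
/-- the sum over the divisors of `D` which do not divide `M` -/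
noncomputable def GG (c : ℤ → ℝ) (I : Finset ℤ) (M : ℕ) (D : ℤ) : ℝ :=
  ∑ q ∈ D.natAbs.divisors.filter (fun q => ¬ q ∣ M), AA c I q

/-- the sum over `z` which belongs to a pair of prime elements -/
noncomputable def PP (f : ℝ → ℝ) (σ : ℤ) (x Y : ℝ) (c : ℤ → ℝ) (v w : G) : ℝ :=
  ∑ z ∈ Bl (2 * x ^ 2 / Y), c (σ * (v * z).im) * f (((v * z).re : ℝ) / x) *
    (c (σ * (w * z).im) * f (((w * z).re : ℝ) / x))

/-- the sum of squares which arises from the inequality of Cauchy -/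
noncomputable def TT (f : ℝ → ℝ) (om : ℕ → ℝ) (σ : ℤ) (x Y : ℝ) (c : ℤ → ℝ) : ℝ :=
  ∑ z ∈ Bl (2 * x ^ 2 / Y), (∑ p ∈ pr1 Y (2 * Y),
    om p * (c (σ * (pel p * z).im) * f (((pel p * z).re : ℝ) / x))) ^ 2

/-- admissible coefficients: bounded by `2`, supported in `[1, B]` -/
def Coef (B : ℝ) (c : ℤ → ℝ) : Prop :=
  (∀ b, |c b| ≤ 2) ∧ ∀ b, c b ≠ 0 → 1 ≤ b ∧ (b : ℝ) ≤ B

end Pool.Agent.TF
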